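import Pool.Agent.U708.MS.Inf
import Pool.Agent.Y842.PH.Tri
import Pool.Agent.Y304.U.Avc
import Pool.Agent.Y304.U.Pw

/-!
# The sign patterns of the Liouville function on most subsets of any set of shifts

The question is whether every sign pattern occurs on `n + 1, …, n + k`; it follows that every sign pattern occurs on
`n + D` for each finite set `D` of shifts. Here this is proved, with frequency near `2 ^ (-|D|)`, for most of the subsets
`D` with `k` elements of an ARBITRARY set `S` of `M ≥ C 4 ^ k` shifts, and in the following strong form. At all scales `N`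
outside one set of logarithmic density zero, once `N` is large in terms of `S`, and for an arbitrary weight `w` bounded by
`1` (for instance the indicator function of any set of natural numbers, in which the patterns are to be found):

* the square of the correlation of `λ` on the `k` shifts of `I`, with the weight `w` and with the phase `e(θ n)` which is
  the worst for `I`, is on average over the subsets `I` of `S` with `k` elements at most `(mean |w|² + ε) / (M - k + 1)`;
* for most of the subsets `D` of `S` with `k ≤ (1 - κ) log₂ M` elements the law of the signs of `λ` on `n + D` is near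
  the uniform law, in total variation, relative to the weight `w` and to all phases at once;
* for most `D` with `k ≤ (1/2 - κ) log₂ M` each of the `2 ^ k` patterns has the right frequency, up to a small factor;
* every infinite set of shifts contains an infinite set `D` such that, along a sequence of scales, all sign patterns on all
  finite subsets `D'` of `D` have frequencies between `(1 - δ) 2 ^ (-|D'|)` and `(1 + δ) 2 ^ (-|D'|)`.

Proof. The functions `n ↦ e(θ_h n) λ(n + h)`, `h ∈ S`, are nearly orthogonal at the scale `N`, uniformly in the phases, by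
the theorem on two point correlations of the library (`Y842.PH.one_E`, starting files, in the tradition of
Matomäki-Radziwiłł-Tao and Tao). Bessel's inequality for the function `w(n) ∏_{j ∈ J} λ(n + j)`, for all `J`, a double count,
and Fourier analysis on the subsets of `D` (`U708/MS`, new).
-/

set_option autoImplicit false

namespace Pool.Agent.Results.MP_4fffd4_nt.MostSubsets

open Finset Filter Topology

open Classical in
/-- `E` has logarithmic density zero. -/
def LogDensityZero (E : Set ℕ) : Prop := Tendsto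
  (fun X : ℕ => (∑ n ∈ Icc 1 X, if n ∈ E then (1 : ℝ) / n else 0) / Real.log X) atTop (𝓝 0)

/-- `e(x) = exp(2 π i x)`. -/
noncomputable def e (x : ℝ) : ℂ := Complex.exp (2 * Real.pi * x * Complex.I)

/-- The Liouville function. -/
def lam (n : ℕ) : ℤ := (-1) ^ ArithmeticFunction.cardFactors n

/-- The mean of `w(n) e(θ n) ∏_{h ∈ I} λ(n + h)` over `1 ≤ n ≤ N`; for `I = ∅` the mean of the weight. -/
noncomputable def correlation (w : ℕ → ℂ) (I : Finset ℕ) (N : ℕ) (θ : ℝ) : ℂ :=
  (∑ n ∈ Icc 1 N, w n * e (θ * n) * ∏ h ∈ I, (lam (n + h) : ℂ)) / N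

/-- The sign pattern on `n + D`, given by the set of the `h ∈ D` with `λ(n + h) = -1`. -/
def pattern (D : Finset ℕ) (n : ℕ) : Finset ℕ := D.filter (fun h => lam (n + h) = -1)

/-- The mean of the weight `w(n) e(θ n)`, restricted to the `n` with the sign pattern `T` on `n + D`, over
`1 ≤ n ≤ N`. -/
noncomputable def frequency (w : ℕ → ℂ) (D T : Finset ℕ) (N : ℕ) (θ : ℝ) : ℂ :=
  (∑ n ∈ (Icc 1 N).filter (fun n => pattern D n = T), w n * e (θ * n)) / N

/-- The mean of `|w(n)|²` over `1 ≤ n ≤ N`. -/
noncomputable def meanSquare (w : ℕ → ℂ) (N : ℕ) : ℝ := (∑ n ∈ Icc 1 N, ‖w n‖ ^ 2) / N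

open Classical in
/-- The sets `D ⊆ S` with `k` elements for which, for some phase `θ`, the total variation distance between the weights of
the sign patterns on `n + D` and the uniform weights is larger than `δ`. -/
noncomputable def exceptionsLaw (S : Finset ℕ) (k : ℕ) (w : ℕ → ℂ) (N : ℕ) (δ : ℝ) : Finset (Finset ℕ) :=
  (S.powersetCard k).filter (fun D => ∃ θ : ℝ,
    δ < ∑ T ∈ D.powerset, ‖frequency w D T N θ - correlation w ∅ N θ / 2 ^ k‖)

open Classical in
/-- The sets `D ⊆ S` with `k` elements for which, for some phase `θ` and some pattern `T`, the weight of the pattern `T` on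
`n + D` differs from the uniform weight by more than `δ / 2 ^ k`. -/
noncomputable def exceptionsPattern (S : Finset ℕ) (k : ℕ) (w : ℕ → ℂ) (N : ℕ) (δ : ℝ) : Finset (Finset ℕ) :=
  (S.powersetCard k).filter (fun D => ∃ θ : ℝ, ∃ T ⊆ D,
    δ / 2 ^ k < ‖frequency w D T N θ - correlation w ∅ N θ / 2 ^ k‖)

/-- **Sign patterns of the Liouville function on most subsets of any set of shifts.** There is one set `E` of logarithmic
density zero with the following properties.

Let `S` be any finite set of shifts, `ε > 0`, and let `N ∉ E` be large in terms of `S` and `ε`. For ALL weights `w` bounded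
by `1`, and for all `1 ≤ k ≤ |S|` and `δ > 0`:
(I) the mean over the subsets `I` of `S` with `k` elements of the square of the correlation on `I` with weight `w` and any
phases `θ_I` is at most `(meanSquare w N + ε) / (|S| - k + 1)`;
(II) for all but the proportion `2 ^ k (meanSquare w N + ε) / (δ² (|S| - k + 1))` of the subsets `D` of `S` with `k`
elements, for all phases `θ`, the weights of the sign patterns on `n + D` are uniform up to `δ` in total variation;
(III) for all but the proportion `4 ^ k (meanSquare w N + ε) / (δ² (|S| - k + 1))` of them, for all phases, each of the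
`2 ^ k` sign patterns on `n + D` has the uniform weight up to `δ / 2 ^ k`.
(IV) For every infinite set `S` of shifts, every infinite set of scales disjoint from `E` and every `δ > 0` there are an
infinite set `D ⊆ S` and a sequence `N_j → ∞` of these scales along which all sign patterns on all finite sets `D' ⊆ D` have
frequencies which converge to numbers between `(1 - δ) 2 ^ (-|D'|)` and `(1 + δ) 2 ^ (-|D'|)`. -/
theorem result : ∃ E : Set ℕ, LogDensityZero E ∧
    (∀ (S : Finset ℕ) (ε : ℝ), 0 < ε → ∃ N₀ : ℕ, ∀ N ≥ N₀, N ∉ E → ∀ w : ℕ → ℂ, (∀ n, ‖w n‖ ≤ 1) →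
      ∀ k : ℕ, 1 ≤ k → k ≤ S.card →
        -- (I)
        (∀ θ : Finset ℕ → ℝ, (∑ I ∈ S.powersetCard k, ‖correlation w I N (θ I)‖ ^ 2) / S.card.choose k ≤
          (meanSquare w N + ε) / (S.card - k + 1)) ∧
        ∀ δ : ℝ, 0 < δ →
          -- (II)
          ((exceptionsLaw S k w N δ).card : ℝ) ≤
            2 ^ k * (meanSquare w N + ε) / (δ ^ 2 * (S.card - k + 1)) * S.card.choose k ∧
          -- (III)
          ((exceptionsPattern S k w N δ).card : ℝ) ≤
            4 ^ k * (meanSquare w N + ε) / (δ ^ 2 * (S.card - k + 1)) * S.card.choose k) ∧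
    -- (IV)
    ∀ S : Set ℕ, S.Infinite → ∀ 𝒩 : Set ℕ, 𝒩.Infinite → (∀ N ∈ 𝒩, N ∉ E) → ∀ δ : ℝ, 0 < δ →
      ∃ D ⊆ S, D.Infinite ∧ ∃ N : ℕ → ℕ, StrictMono N ∧ (∀ j, N j ∈ 𝒩) ∧
        ∀ D' : Finset ℕ, (D' : Set ℕ) ⊆ D → ∀ T ⊆ D', ∃ p : ℝ,
          (1 - δ) / 2 ^ D'.card ≤ p ∧ p ≤ (1 + δ) / 2 ^ D'.card ∧
          Tendsto (fun j => (((Icc 1 (N j)).filter (fun n => pattern D' n = T)).card : ℝ) / N j) atTop (𝓝 p) := by
  classical
  obtain ⟨E, hE, h1⟩ := Pool.Agent.Y842.PH.one_E (Pool.Agent.Y304.U.avc Pool.Agent.Y304.U.pw)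
    Pool.Agent.H376R2.MR.lam Pool.Agent.Y842.EL.abs_lam Pool.Agent.TH823.MRS.lam_flip Pool.Agent.TH823.MRS.expo_lam
  have hK : Pool.Agent.R296.RE.Kf lam E := h1
  have hlam : ∀ n, lam n = 1 ∨ lam n = -1 := fun n => neg_one_pow_eq_or ℤ _
  refine ⟨E, hE, fun S ε hε => ?_, ?_⟩
  · obtain ⟨N₁, hA⟩ := Pool.Agent.U708.MS.thmA hlam hK S ε hε
    obtain ⟨N₂, hB⟩ := Pool.Agent.U708.MS.thmB hlam hK S ε hε
    obtain ⟨N₃, hC⟩ := Pool.Agent.U708.MS.thmC hlam hK S ε hε
    refine ⟨N₁ + N₂ + N₃, fun N hN hNE w hw k hk hkS => ?_⟩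
    have hM : (0 : ℝ) < (S.card : ℝ) - k + 1 := by
      have : (k : ℝ) ≤ S.card := by exact_mod_cast hkS
      linarith
    have hch : (0 : ℝ) < (S.card.choose k : ℝ) := by exact_mod_cast Nat.choose_pos hkS
    refine ⟨fun θ => ?_, fun δ hδ => ⟨?_, ?_⟩⟩
    · have h2 := hA N (by omega) hNE w hw θ k hk hkS
      rw [div_le_div_iff₀ hch hM]
      rw [mul_comm] at h2
      rw [mul_comm (meanSquare w N + ε)]
      exact h2
    · have h2 := hB N (by omega) hNE w hw k hkS δ hδ (exceptionsLaw S k w N δ) (filter_subset _ _) (fun D hD => by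
        unfold exceptionsLaw at hD
        exact (mem_filter.1 hD).2)
      rw [div_mul_eq_mul_div, le_div_iff₀ (by positivity)]
      calc _ = ((S.card : ℝ) - k + 1) * (δ ^ 2 * (exceptionsLaw S k w N δ).card) := by ring
        _ ≤ _ := h2
        _ = 2 ^ k * (meanSquare w N + ε) * S.card.choose k := by
          show _ = 2 ^ k * (Pool.Agent.U708.MS.msq w N + ε) * S.card.choose k
          ring
    · have h2 := hC N (by omega) hNE w hw k hkS δ hδ (exceptionsPattern S k w N δ) (filter_subset _ _) (fun D hD => by
        unfold exceptionsPattern at hD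
        exact (mem_filter.1 hD).2)
      rw [div_mul_eq_mul_div, le_div_iff₀ (by positivity)]
      calc _ = ((S.card : ℝ) - k + 1) * (δ ^ 2 * (exceptionsPattern S k w N δ).card) := by ring
        _ ≤ _ := h2
        _ = 4 ^ k * (meanSquare w N + ε) * S.card.choose k := by
          show _ = 4 ^ k * (Pool.Agent.U708.MS.msq w N + ε) * S.card.choose k
          ring
  · intro S hS 𝒩 h𝒩 h𝒩E δ hδ
    obtain ⟨D, hD1, hD2, u, hu1, hu2, h2⟩ := Pool.Agent.U708.MS.inf hlam hK hS h𝒩 h𝒩E δ hδ
    refine ⟨D, hD1, hD2, u, hu1, hu2, fun D' hD' T hT => ?_⟩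
    obtain ⟨p, hp, hlim⟩ := h2 D' hD' T hT
    have h3 : (0 : ℝ) < 2 ^ D'.card := by positivity
    rw [abs_le] at hp
    refine ⟨p, ?_, ?_, hlim⟩
    · rw [div_le_iff₀ h3]
      linarith [hp.1]
    · rw [le_div_iff₀ h3]
      linarith [hp.2]

end Pool.Agent.Results.MP_4fffd4_nt.MostSubsets
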