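import Mathlib
import Pool.Agent.U496.PD.Lio

/-!
# Pushdown machines make a positive proportion of errors on the Liouville function

A deterministic pushdown machine (finitely many states, an unbounded stack, any number of silent moves) reads
`λ(1), λ(2), …` and predicts the next value. The full block complexity of `λ` would say that the last `n` values never
determine the next one. Here the predictor has an unbounded memory, and it makes at least `c N` errors on
`λ(1), …, λ(N)`. The landed theorem `PushdownPatterns` of this problem has `c log N`; the order `N` is best possible.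

Proof. (1) On a stretch without errors the machine is an autonomous pushdown system. Such a system is either surface
periodic with a bounded period from now on, or it destroys a positive proportion of its stack within a linear time
(`drain`). The height of the stack grows by a bounded amount while a digit is read, so that it is a potential: the number
of all `n < N` is bounded by the number of errors, times the length `L` of the repetitions we want to see, plus the height
of the stack at the beginning, plus the number of the `n < N` from which on the sequence repeats itself with a bounded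
period for `L` digits (`core`). This holds for ALL bounded sequences.

(2) A repetition of a completely multiplicative function `f` with period `ρ` makes `f` constant on an interval at `n / ρ`
(`const_of_rep`). If `f(q) = -1` then such an interval contains neither a square nor `q` times a square, hence its length is
at most `C √n`. For the Liouville function the theorem of Matomaki and Radziwill (starting library `TH823.MRS`) shows that
almost no interval of length `H` is constant, if `H` is large.
-/

set_option autoImplicit false

namespace Pool.Agent.Results.MP_4fffd4_nt.PushdownErrorRate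

open Pool.Agent.U364.PD (Machine errors)
open Pool.Agent.U496.PD (Rep code)

/-- the Liouville function `λ(n) = (-1)^Ω(n)` -/
def lam (n : ℕ) : ℤ := (-1) ^ ArithmeticFunction.cardFactors n

open Classical in
/-- **Pushdown machines and sign patterns: positive error rate.** Let `M` be a deterministic pushdown machine with finitely
many states and stack symbols (silent moves are allowed).

(1) For every `b` there are `K` and `P ≥ 1` such that for all sequences `d` of integers in `[0, b)`, all initial states,
all initial stacks `s₀`, all `L` and all `N`: `N ≤ K ((L + 1) (E + 1) + |s₀| + R)`, where `E` is the number of errors of `M`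
on `d 1, …, d N` and `R` is the number of the `n < N` such that, for some period `ρ ≤ P`, `d (n + i + ρ) = d (n + i)` for
`i = 1, …, L`.
(2) For every `q ≥ 1` there is `K` such that `N ≤ K (√N (E + 1) + |s₀|)` for the signs of all completely multiplicative
functions `f` with values `±1` and `f(q) = -1`.
(3) For the Liouville function there is `K` with `N ≤ K (E + |s₀| + 1)`.
(4) There is `c > 0`, depending on `M` only, such that from all initial situations `M` makes at least `c N` errors on
`λ(1), …, λ(N)` for all large `N`. -/
theorem result {Q Γ : Type} [Finite Q] [Finite Γ] (M : Machine Q Γ) :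
    (∀ b : ℕ, ∃ K P : ℕ, 1 ≤ P ∧ ∀ d : ℕ → ℤ, (∀ n, 0 ≤ d n ∧ d n < b) →
      ∀ (q₀ : Q) (s₀ : List Γ) (L N : ℕ),
        N ≤ K * ((L + 1) * (errors M d q₀ s₀ N + 1) + s₀.length +
          ((Finset.range N).filter (Rep d L P)).card)) ∧
    (∀ q : ℕ, 1 ≤ q → ∃ K : ℝ, ∀ f : ℕ → ℤ, (∀ n, 1 ≤ n → f n = 1 ∨ f n = -1) →
      (∀ m n, 1 ≤ m → 1 ≤ n → f (m * n) = f m * f n) → f q = -1 →
      ∀ (q₀ : Q) (s₀ : List Γ) (N : ℕ),
        (N : ℝ) ≤ K * (Real.sqrt N * (errors M (code f) q₀ s₀ N + 1) + s₀.length)) ∧
    (∃ K : ℝ, ∀ (q₀ : Q) (s₀ : List Γ) (N : ℕ),
      (N : ℝ) ≤ K * (errors M (code lam) q₀ s₀ N + s₀.length + 1)) ∧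
    (∃ c : ℝ, 0 < c ∧ ∀ (q₀ : Q) (s₀ : List Γ), ∃ N₀ : ℕ, ∀ N : ℕ, N₀ ≤ N →
      c * N ≤ errors M (code lam) q₀ s₀ N) := by
  have part3 : ∃ K : ℝ, ∀ (q₀ : Q) (s₀ : List Γ) (N : ℕ),
      (N : ℝ) ≤ K * (errors M (code lam) q₀ s₀ N + s₀.length + 1) := Pool.Agent.U496.PD.lio M
  refine ⟨fun b => Pool.Agent.U496.PD.core M b, fun q hq => Pool.Agent.U496.PD.mult M q hq, part3, ?_⟩
  obtain ⟨K, hK⟩ := part3
  refine ⟨1 / (2 * (|K| + 1)), by positivity, fun q₀ s₀ => ?_⟩
  obtain ⟨N₀, hN₀⟩ := exists_nat_ge (2 * (|K| + 1) * (s₀.length + 1))
  refine ⟨N₀, fun N hN => ?_⟩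
  have h1 := hK q₀ s₀ N
  obtain ⟨E, hE⟩ : ∃ E, E = errors M (code lam) q₀ s₀ N := ⟨_, rfl⟩
  rw [← hE] at h1 ⊢
  have h2 : (0 : ℝ) < |K| + 1 := by positivity
  have h3 : (N₀ : ℝ) ≤ N := by exact_mod_cast hN
  have h4 : (0 : ℝ) ≤ (E : ℝ) + s₀.length + 1 := by positivity
  have h5 : (N : ℝ) ≤ (|K| + 1) * (E + s₀.length + 1) :=
    h1.trans (mul_le_mul_of_nonneg_right (by linarith [le_abs_self K]) h4)
  rw [div_mul_eq_mul_div, one_mul, div_le_iff₀ (by positivity)]
  nlinarith

end Pool.Agent.Results.MP_4fffd4_nt.PushdownErrorRate
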