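import Mathlib
import Pool.Agent.U364.PD.Mach
import Pool.Agent.U364.PD.Joint

/-!
# No pushdown machine predicts the Liouville function

The full block complexity of the Liouville function `λ` would say that the last `n` values never determine the next one.
Here the predictor has an unbounded memory: a deterministic pushdown machine (with any number of silent moves) reads
`λ(1), λ(2), …` and predicts the next value. It makes at least `c log N` errors on the first `N` values. The constant
depends on the machine only, and it is the same for all completely multiplicative functions `f` with values `±1` and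
`f(2) = -1`; with another prime `q` in place of `2` this covers all completely multiplicative functions with values `±1`
other than the constant `1`.

Proof: on a stretch without errors the machine is an autonomous pushdown system, so that the values are periodic, with a
bounded period `p`, after a number of values which is at most linear in the position of the stretch
(`Pool.Agent.U364.PD.stretchP`); and `f(q k) ≠ f(k)` for a multiple `k` of `p`.
-/

set_option autoImplicit false

namespace Pool.Agent.Results.MP_4fffd4_nt.PushdownPatterns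

open Pool.Agent.U364.PD

/-- the Liouville function `λ(n) = (-1)^Ω(n)` -/
def lam (n : ℕ) : ℤ := (-1) ^ ArithmeticFunction.cardFactors n

/-- the signs `1` and `-1` coded as `1` and `0` -/
def code (f : ℕ → ℤ) (n : ℕ) : ℤ := if f n = 1 then 1 else 0

theorem general (q b : ℕ) (hq0 : 1 ≤ q) {Q Γ : Type} [Finite Q] [Finite Γ] (M : Machine Q Γ) :
    ∃ K : ℝ, 1 ≤ K ∧ ∀ f : ℕ → ℤ, (∀ n, 0 ≤ f n ∧ f n < b) → (∀ k, 1 ≤ k → f (q * k) ≠ f k) →
      ∀ (q₀ : Q) (s₀ : List Γ) (N : ℕ), (N : ℝ) ≤ K ^ (errors M f q₀ s₀ N + 1) * (s₀.length + 1) := by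
  classical
  obtain ⟨C, P, hCP⟩ := stretchP M b
  refine ⟨((q : ℝ) + 1) * (C + 2) + 2, by
    have h1 : (0 : ℝ) ≤ C := Nat.cast_nonneg C
    have h2 : (0 : ℝ) ≤ q := Nat.cast_nonneg q
    nlinarith [mul_nonneg h1 h2], ?_⟩
  intro f hf hq q₀ s₀ N
  have hgap : ∀ u v : ℕ, (∀ i, u ≤ i → i < v → Predicts M f q₀ s₀ i) →
      (v : ℝ) ≤ (((q : ℝ) + 1) * (C + 2)) * (u + (s₀.length : ℝ) + 1) := by
    intro u v hp
    obtain ⟨a, p, hp1, -, hap, hper⟩ := hCP f hf q₀ s₀ u v hp
    have h1 : v ≤ (q + 1) * (u + a + p) := by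
      by_contra hv
      push Not at hv
      -- a multiple of `p` after the beginning of the periodic part
      obtain ⟨t, ht1, ht2⟩ : ∃ t, u + a + 1 ≤ p * t ∧ p * t ≤ u + a + p := by
        refine ⟨(u + a + p) / p, ?_, Nat.mul_div_le _ _⟩
        have := Nat.lt_mul_div_succ (u + a + p) (by omega : 0 < p)
        rw [Nat.mul_add, Nat.mul_one] at this
        omega
      have hper' : ∀ j : ℕ, p * t + p * j ≤ v → f (p * t + p * j) = f (p * t) := by
        intro j
        induction j with
        | zero => intro _; simp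
        | succ j ih =>
          intro hj
          have h3 : p * (j + 1) = p * j + p := by ring
          rw [h3] at hj ⊢
          rw [← ih (by omega)]
          obtain ⟨i, hi⟩ : ∃ i, p * t + p * j = u + i + 1 := ⟨p * t + p * j - u - 1, by omega⟩
          rw [← add_assoc, hi, show u + i + 1 + p = u + i + p + 1 by omega]
          exact hper i (by omega) (by omega)
      obtain ⟨r, rfl⟩ : ∃ r, q = r + 1 := ⟨q - 1, by omega⟩
      have h3 : (r + 1) * (p * t) = p * t + p * (t * r) := by ring
      refine hq (p * t) (by omega) ?_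
      rw [h3]
      refine hper' _ ?_
      rw [← h3]
      calc (r + 1) * (p * t) ≤ (r + 1) * (u + a + p) := Nat.mul_le_mul_left _ ht2
        _ ≤ (r + 1 + 1) * (u + a + p) := Nat.mul_le_mul_right _ (by omega)
        _ ≤ v := hv.le
    have h2 : v ≤ (q + 1) * (u + C * (u + s₀.length + 1)) :=
      h1.trans (Nat.mul_le_mul_left _ (by omega))
    have h3 : (v : ℝ) ≤ ((q : ℝ) + 1) * (u + C * (u + s₀.length + 1)) := by exact_mod_cast h2
    have h4 : (0 : ℝ) ≤ C := Nat.cast_nonneg C
    have h6 : (0 : ℝ) ≤ s₀.length := Nat.cast_nonneg _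
    have h7 : (0 : ℝ) ≤ u := Nat.cast_nonneg u
    have h8 : (0 : ℝ) ≤ (q : ℝ) + 1 := by positivity
    refine h3.trans ?_
    rw [mul_assoc]
    refine mul_le_mul_of_nonneg_left ?_ h8
    nlinarith
  have h1 := count_bound (((q : ℝ) + 1) * (C + 2)) (by positivity) (s₀.length : ℝ) (by positivity)
    (fun i => Predicts M f q₀ s₀ i) hgap N
  have h2 : errors M f q₀ s₀ N = ((Finset.range N).filter fun n => ¬ Predicts M f q₀ s₀ n).card := by
    unfold errors
    congr
  rw [h2]
  exact h1

theorem code_range (f : ℕ → ℤ) (n : ℕ) : 0 ≤ code f n ∧ code f n < (2 : ℕ) := by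
  unfold code
  split_ifs <;> norm_num

theorem lam_two_mul (k : ℕ) (hk : 1 ≤ k) : lam (2 * k) = - lam k := by
  unfold lam
  rw [ArithmeticFunction.cardFactors_mul (by norm_num) (by omega), pow_add,
    ArithmeticFunction.cardFactors_apply_prime Nat.prime_two]
  ring

theorem lam_sign (n : ℕ) : lam n = 1 ∨ lam n = -1 := neg_one_pow_eq_or ℤ _

/-- **Pushdown machines and sign patterns.** Let `M` be a deterministic pushdown machine with finitely many states and
stack symbols (silent moves are allowed). (1) For all `b` and `q ≥ 1` there is `K` such that, for all sequences `f` of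
integers in `[0, b)` with `f(q k) ≠ f(k)` for all `k ≥ 1`, all initial states and stacks `s₀` and all `N`, if `M` makes `E`
errors on `f(1), …, f(N)` then `N ≤ K ^ (E + 1) (|s₀| + 1)`. (2) For all `q ≥ 1` there is `K` such that this holds for the
signs of all completely multiplicative functions `f` with `f(n) = ±1` for all `n ≥ 1` and `f(q) = -1`. (3) There are
`K ≥ 1` and `c > 0` such that this holds for the Liouville function, and for all initial states and stacks `M` makes
at least `c log N` errors on `λ(1), …, λ(N)` for all large `N`. -/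
theorem result {Q Γ : Type} [Finite Q] [Finite Γ] (M : Machine Q Γ) :
    (∀ b q : ℕ, 1 ≤ q → ∃ K : ℝ, 1 ≤ K ∧ ∀ f : ℕ → ℤ, (∀ n, 0 ≤ f n ∧ f n < b) →
      (∀ k, 1 ≤ k → f (q * k) ≠ f k) → ∀ (q₀ : Q) (s₀ : List Γ) (N : ℕ),
      (N : ℝ) ≤ K ^ (errors M f q₀ s₀ N + 1) * (s₀.length + 1)) ∧
    (∀ q : ℕ, 1 ≤ q → ∃ K : ℝ, 1 ≤ K ∧ ∀ f : ℕ → ℤ, (∀ n, 1 ≤ n → f n = 1 ∨ f n = -1) →
      (∀ m n, 1 ≤ m → 1 ≤ n → f (m * n) = f m * f n) → f q = -1 →
      ∀ (q₀ : Q) (s₀ : List Γ) (N : ℕ),
      (N : ℝ) ≤ K ^ (errors M (code f) q₀ s₀ N + 1) * (s₀.length + 1)) ∧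
    (∃ K : ℝ, 1 ≤ K ∧ ∀ (q₀ : Q) (s₀ : List Γ) (N : ℕ),
      (N : ℝ) ≤ K ^ (errors M (code lam) q₀ s₀ N + 1) * (s₀.length + 1)) ∧
    (∃ c : ℝ, 0 < c ∧ ∀ (q₀ : Q) (s₀ : List Γ), ∃ N₀ : ℕ, ∀ N, N₀ ≤ N →
      c * Real.log N ≤ errors M (code lam) q₀ s₀ N) := by
  have part3 : ∃ K : ℝ, 1 ≤ K ∧ ∀ (q₀ : Q) (s₀ : List Γ) (N : ℕ),
      (N : ℝ) ≤ K ^ (errors M (code lam) q₀ s₀ N + 1) * (s₀.length + 1) := by
    obtain ⟨K, hK1, hK⟩ := general 2 2 (by norm_num) M
    refine ⟨K, hK1, hK (code lam) (code_range lam) fun k hk => ?_⟩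
    unfold code
    rw [lam_two_mul k hk]
    rcases lam_sign k with h | h <;> rw [h] <;> norm_num
  refine ⟨fun b q hq => general q b hq M, fun q hq => ?_, part3, ?_⟩
  · obtain ⟨K, hK1, hK⟩ := general q 2 hq M
    refine ⟨K, hK1, fun f hf hmul hfq => hK (code f) (code_range f) fun k hk => ?_⟩
    unfold code
    rw [hmul q k hq hk, hfq]
    rcases hf k hk with h | h <;> rw [h] <;> norm_num
  · obtain ⟨K, hK1, hK⟩ := part3
    have hK2 : 1 < K + 1 := by linarith
    have hlK : 0 < Real.log (K + 1) := Real.log_pos hK2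
    refine ⟨1 / (2 * Real.log (K + 1)), by positivity, fun q₀ s₀ => ?_⟩
    obtain ⟨S, hS⟩ : ∃ S : ℝ, S = (K + 1) * (s₀.length + 1) := ⟨_, rfl⟩
    have hS0 : 0 < S := by rw [hS]; positivity
    refine ⟨⌈S ^ 2⌉₊ + 1, fun N hN => ?_⟩
    have hN1 : S ^ 2 ≤ N := by
      have h3 : ((⌈S ^ 2⌉₊ + 1 : ℕ) : ℝ) ≤ N := by exact_mod_cast hN
      push_cast at h3
      linarith [Nat.le_ceil (S ^ 2)]
    have hN0 : (0 : ℝ) < N := lt_of_lt_of_le (by positivity) hN1
    have h3 := hK q₀ s₀ N
    obtain ⟨E, hE⟩ : ∃ E : ℕ, E = errors M (code lam) q₀ s₀ N := ⟨_, rfl⟩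
    rw [← hE] at h3 ⊢
    have h4 : (N : ℝ) ≤ (K + 1) ^ E * S := by
      rw [hS, ← mul_assoc, ← pow_succ]
      exact h3.trans (mul_le_mul_of_nonneg_right (pow_le_pow_left₀ (by linarith) (by linarith) _)
        (by positivity))
    have h5 : Real.log N ≤ E * Real.log (K + 1) + Real.log S := by
      rw [← Real.log_pow, ← Real.log_mul (by positivity) hS0.ne']
      exact Real.log_le_log hN0 h4
    have h6 : 2 * Real.log S ≤ Real.log N := by
      have : Real.log (S ^ 2) = 2 * Real.log S := by rw [Real.log_pow]; norm_num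
      rw [← this]
      exact Real.log_le_log (by positivity) hN1
    rw [div_mul_eq_mul_div, one_mul, div_le_iff₀ (by positivity)]
    linarith

end Pool.Agent.Results.MP_4fffd4_nt.PushdownPatterns
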