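import Mathlib
import Pool.Agent.H220M.Fin1

/-!
# Sign changes of the Liouville function at a few primes produce all sign patterns

Let `g` be any completely multiplicative function with values `1` and `-1` at the primes, for
instance the Liouville function, and let `Q` be ANY finite set of primes.  There are `2 ^ |Q|`
completely multiplicative functions with values `1`, `-1` at the primes which agree with `g` at the
primes outside `Q` (`family g Q`, defined in `Pool.Agent.H220M.Base`).  If `Q` has `I n` elements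
greater than `n`, then all but at most a proportion `2 ^ n (1 - 2 ^ (-n)) ^ I` of these functions have
the full block complexity `2 ^ n`; all the patterns even occur with frequency at least
`1 / (2 ^ (n+1) M)` up to `x`, simultaneously, where `M` is the product of the squares of `I n` of the
primes, for infinitely many `x`, and at each individual scale `x ≥ M` the proportion of the
exceptional functions obeys the same bound.

The bound does not depend on `g` nor on the sizes of the primes in `Q`, only on their number: the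
primes may be arbitrarily sparse.  The method (project H220M of the starting files, core
`Pool.Agent.H220M.A2`): choose residue classes `a i`, `i < I`, modulo `M` in which `q i j` divides
exactly `m + j + 1` and exactly once, and a pattern of `g` which is frequent in the class; changing
signs at the `q i j` changes this pattern into all the other ones.
-/

set_option autoImplicit false

namespace Pool.Agent.Results.MP_4fffd4_nt.SignChangesAtFewPrimes

open Finset Filter Pool.Agent.H220M

/-- `family g Q`: the completely multiplicative functions with values `1`, `-1` at the primes which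
agree with `g` at the primes outside `Q`; `cnt f t x`: the number of the `m < x` such that
`f (m + 1), …, f (m + n)` is the pattern `t`.  Let `Q` be a finite set of primes and `B` a set of
`I n` elements of `Q`, all greater than `n`, and `M` the product of the `q ^ 2`, `q ∈ B`.

(1) `family g Q` has `2 ^ |Q|` elements.
(2) At each scale `x ≥ M` at most `2 ^ n (1 - 2 ^ (-n)) ^ I 2 ^ |Q|` members `f` of the family have a
pattern of length `n` which occurs for fewer than `x / (2 ^ (n + 1) M)` of the `m < x`.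
(3) For all but at most `2 ^ n (1 - 2 ^ (-n)) ^ I 2 ^ |Q|` members `f` of the family there are
infinitely many `x` such that each of the `2 ^ n` patterns of length `n` occurs for at least
`x / (2 ^ (n + 1) M)` of the `m < x`. -/
theorem result (n I : ℕ) (Q B : Finset ℕ) (hQ : ∀ q ∈ Q, q.Prime) (hBQ : B ⊆ Q)
    (hB : ∀ q ∈ B, n < q) (hBc : B.card = I * n)
    (g : ℕ →*₀ ℤ) (hg : ∀ p : ℕ, p.Prime → g p = 1 ∨ g p = -1) :
    (family g Q).ncard = 2 ^ Q.card ∧
    (∀ x : ℕ, (∏ q ∈ B, q ^ 2) ≤ x →
      ({f ∈ family g Q | ∃ t : Fin n → ℤ, (∀ j, t j = 1 ∨ t j = -1) ∧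
        cnt f t x * (2 ^ (n + 1) * ∏ q ∈ B, q ^ 2) < x}.ncard : ℝ) ≤
          2 ^ n * (1 - 1 / 2 ^ n) ^ I * 2 ^ Q.card) ∧
    ({f ∈ family g Q | ¬ ∃ᶠ x : ℕ in atTop, ∀ t : Fin n → ℤ, (∀ j, t j = 1 ∨ t j = -1) →
        x ≤ cnt f t x * (2 ^ (n + 1) * ∏ q ∈ B, q ^ 2)}.ncard : ℝ) ≤
          2 ^ n * (1 - 1 / 2 ^ n) ^ I * 2 ^ Q.card := by
  classical
  obtain ⟨g', hfin, hcardF, hbad⟩ := family_bad g hg Q hQ
  have e : Fin I × Fin n ≃ B := Fintype.equivOfCardEq (by simp [hBc])
  obtain ⟨M, hM⟩ : ∃ M, M = ∏ q ∈ B, q ^ 2 := ⟨_, rfl⟩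
  rw [← hM]
  have hMe : ∏ i : Fin I, ∏ j : Fin n, ((e (i, j) : ℕ)) ^ 2 = M := by
    rw [hM, ← Finset.prod_coe_sort B (fun q => q ^ 2), ← e.prod_comp, Fintype.prod_prod_type]
  have key : ∀ x : ℕ, M ≤ x →
      ({f ∈ family g Q | ∃ t : Fin n → ℤ, (∀ j, t j = 1 ∨ t j = -1) ∧
        cnt f t x * (2 ^ (n + 1) * M) < x}.ncard : ℝ) ≤
          2 ^ n * (1 - 1 / 2 ^ n) ^ I * 2 ^ Q.card := by
    intro x hx
    have hcount := TA3.count (tA2 tA1) Q B hBQ hQ hB e g' x (by rw [hMe]; exact hx)
    rw [hMe] at hcount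
    have h1 : {f ∈ family g Q | ∃ t : Fin n → ℤ, (∀ j, t j = 1 ∨ t j = -1) ∧
        cnt f t x * (2 ^ (n + 1) * M) < x}.ncard ≤
        2 ^ n * (2 ^ (Q.card - B.card) * (2 ^ n - 1) ^ I) := by
      refine le_trans ?_ hcount
      apply hbad
      rintro f S hS hf ⟨t, ht, hlt⟩
      obtain ⟨t', rfl⟩ := unit_of_pm t ht
      refine ⟨t', ?_⟩
      rw [cnt_eq f (fun m => g' m * flipU S m) hf] at hlt
      have h2 : 2 ^ (n + 1) * M = 2 ^ n * (2 * M) := by ring
      rwa [h2] at hlt
    have hBle : B.card ≤ Q.card := card_le_card hBQ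
    have h6 : ((2 ^ n * (2 ^ (Q.card - B.card) * (2 ^ n - 1) ^ I) : ℕ) : ℝ) =
        2 ^ n * (2 ^ (Q.card - B.card) * (2 ^ n - 1) ^ I) := by
      have h7 : 1 ≤ 2 ^ n := Nat.one_le_two_pow
      push_cast [Nat.cast_sub h7]
      ring
    have hsplit : (2 : ℝ) ^ Q.card = 2 ^ (Q.card - B.card) * (2 ^ n) ^ I := by
      rw [← pow_mul, ← pow_add]
      congr 1
      rw [hBc] at hBle ⊢
      rw [mul_comm n I]
      omega
    have h8 : ((2 : ℝ) ^ n - 1) ^ I = (2 ^ n) ^ I * (1 - 1 / 2 ^ n) ^ I := by
      rw [← mul_pow]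
      congr 1
      field_simp
    calc _ ≤ ((2 ^ n * (2 ^ (Q.card - B.card) * (2 ^ n - 1) ^ I) : ℕ) : ℝ) := by exact_mod_cast h1
      _ = 2 ^ n * (2 ^ (Q.card - B.card) * (2 ^ n - 1) ^ I) := h6
      _ = 2 ^ n * (1 - 1 / 2 ^ n) ^ I * 2 ^ Q.card := by
        rw [h8, hsplit]
        ring
  refine ⟨hcardF, key, ?_⟩
  set A : Set (ℕ →*₀ ℤ) := {f ∈ family g Q | ¬ ∃ᶠ x : ℕ in atTop, ∀ t : Fin n → ℤ,
    (∀ j, t j = 1 ∨ t j = -1) → x ≤ cnt f t x * (2 ^ (n + 1) * M)} with hA
  have hAfin : A.Finite := hfin.subset (fun f hf => hf.1)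
  have hev : ∀ᶠ x : ℕ in atTop, ∀ f ∈ A, ∃ t : Fin n → ℤ, (∀ j, t j = 1 ∨ t j = -1) ∧
      cnt f t x * (2 ^ (n + 1) * M) < x := by
    rw [Filter.eventually_all_finite hAfin]
    rintro f ⟨_, hf⟩
    rw [Filter.not_frequently] at hf
    refine hf.mono fun x hx => ?_
    push Not at hx
    exact hx
  obtain ⟨x, hxA, hxx⟩ := (hev.and (eventually_ge_atTop M)).exists
  refine le_trans ?_ (key x hxx)
  rw [Nat.cast_le]
  apply Set.ncard_le_ncard _ (hfin.subset (fun f hf => hf.1))
  intro f hf
  exact ⟨hf.1, hxA f hf⟩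

end Pool.Agent.Results.MP_4fffd4_nt.SignChangesAtFewPrimes
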